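import Pool.Agent.Lib.MP_1a91b9_nuT.BaseK

/-!
# Squares and cubes in extensions of degree prime to two and to three
-/

set_option autoImplicit false

namespace Pool.Agent.Lib.MP_1a91b9_nuT.DW

open Polynomial

/-- a cube in an extension of degree prime to three is a cube -/
theorem exists_cube3 {N L : Type*} [Field N] [Field L] [Algebra N L] [FiniteDimensional N L]
    (hk : ¬ 3 ∣ Module.finrank N L) (t : N) (c : L) (hc : c ^ 3 = algebraMap N L t) :
    ∃ d : N, d ^ 3 = t := by
  by_contra hcon
  push Not at hcon
  have hirr : Irreducible (X ^ 3 - C t : N[X]) :=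
    X_pow_sub_C_irreducible_of_prime Nat.prime_three fun b hb => hcon b hb
  have hmin : minpoly N c = X ^ 3 - C t := by
    refine (minpoly.eq_of_irreducible_of_monic hirr ?_ (monic_X_pow_sub_C t (by norm_num))).symm
    rw [map_sub, map_pow, aeval_X, aeval_C, hc, sub_self]
  have hdeg : (minpoly N c).natDegree = 3 := by rw [hmin, natDegree_X_pow_sub_C]
  have hint : IsIntegral N c := Algebra.IsIntegral.isIntegral c
  apply hk
  rw [← hdeg, ← IntermediateField.adjoin.finrank hint]
  exact ⟨_, (Module.finrank_mul_finrank N (IntermediateField.adjoin N {c}) L).symm⟩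


/-- A square of `N` in an extension of odd degree is a square. -/
theorem exists_sq_odd {N L : Type*} [Field N] [Field L] [Algebra N L] [FiniteDimensional N L]
    (hk : ¬ 2 ∣ Module.finrank N L) (t : N) (c : L) (hc : c ^ 2 = algebraMap N L t) :
    ∃ d : N, algebraMap N L d = c := by
  by_contra hcon
  have hirr : Irreducible (X ^ 2 - C t : N[X]) := by
    refine X_pow_sub_C_irreducible_of_prime Nat.prime_two fun b hb => hcon ?_
    have h1 : (c - algebraMap N L b) * (c + algebraMap N L b) = 0 := by
      have h2 : algebraMap N L b ^ 2 = algebraMap N L t := by rw [← map_pow, hb]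
      linear_combination hc - h2
    rcases mul_eq_zero.1 h1 with h | h
    · exact ⟨b, (sub_eq_zero.1 h).symm⟩
    · exact ⟨-b, by rw [map_neg]; linear_combination -h⟩
  have hmin : minpoly N c = X ^ 2 - C t := by
    refine (minpoly.eq_of_irreducible_of_monic hirr ?_ (monic_X_pow_sub_C t (by norm_num))).symm
    rw [map_sub, map_pow, aeval_X, aeval_C, hc, sub_self]
  have hdeg : (minpoly N c).natDegree = 2 := by rw [hmin, natDegree_X_pow_sub_C]
  have hint : IsIntegral N c := Algebra.IsIntegral.isIntegral c
  apply hk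
  rw [← hdeg, ← IntermediateField.adjoin.finrank hint]
  exact ⟨_, (Module.finrank_mul_finrank N (IntermediateField.adjoin N {c}) L).symm⟩

/-- The elements of `N` which are squares in `N(√D)`. -/
theorem sq_cases {D : ℤ} {N F : Type*} [Field N] [CharZero N] [Field F] [Algebra N F] (z : F)
    (hz : z ^ 2 = (D : F)) (hn : ∀ x : N, algebraMap N F x ≠ z)
    (hgen : ∀ t : F, ∃ a b : N, t = algebraMap N F a + algebraMap N F b * z)
    (x : F) (d : N) (hx : x ^ 2 = algebraMap N F d) :
    (∃ y : N, d = y ^ 2) ∨ ∃ y : N, d = D * y ^ 2 := by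
  obtain ⟨a, b, rfl⟩ := hgen x
  have h1 : algebraMap N F (d - a ^ 2 - D * b ^ 2) = algebraMap N F (2 * (a * b)) * z := by
    simp only [map_sub, map_mul, map_pow, map_ofNat, map_intCast]
    linear_combination -hx + (algebraMap N F b) ^ 2 * hz
  have h2 : 2 * (a * b) = 0 := by
    by_contra h3
    apply hn ((d - a ^ 2 - D * b ^ 2) / (2 * (a * b)))
    rw [map_div₀, h1, mul_comm, mul_div_assoc, div_self, mul_one]
    rw [Ne, map_eq_zero]
    exact h3
  have h4 : d - a ^ 2 - D * b ^ 2 = 0 := by
    apply (algebraMap N F).injective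
    rw [h1, h2, map_zero, zero_mul]
  rcases mul_eq_zero.1 h2 with h | h
  · exact absurd h two_ne_zero
  · rcases mul_eq_zero.1 h with h | h
    · right
      refine ⟨b, ?_⟩
      rw [h] at h4
      linear_combination h4
    · left
      refine ⟨a, ?_⟩
      rw [h] at h4
      linear_combination h4

end Pool.Agent.Lib.MP_1a91b9_nuT.DW
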